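import Pool.Agent.Q289.LD.Stm

/-! Job CVX of project LD (helper289). -/

set_option autoImplicit false

namespace Q38.LD.Cvx

open MeasureTheory Set Filter Topology
open scoped ENNReal InnerProductSpace
open Pool.Agent.W695.KH (Eu EU Sm Pot WPo)
open Q289.LD

variable {κ : Type} [Fintype κ] {ρ : Eu κ → ℝ} {A M c : ℝ}

lemma bdd (hρ : Den ρ) (hE : Ex ρ M c) (hA : 0 < A) (x : Eu κ) :
    BddAbove (range fun y => ρ y * Real.exp (-(A / 2 * ‖x - y‖ ^ 2))) := by
  refine ⟨M, ?_⟩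
  rintro _ ⟨y, rfl⟩
  have h1 : ρ y ≤ M := by
    refine (hE.2.2 y).trans ?_
    have : Real.exp (-(c * ‖y‖)) ≤ 1 := by
      rw [Real.exp_le_one_iff]
      have := mul_nonneg hE.2.1.le (norm_nonneg y)
      linarith
    have := mul_le_mul_of_nonneg_left this hE.1.le
    linarith
  have h2 : Real.exp (-(A / 2 * ‖x - y‖ ^ 2)) ≤ 1 := by
    rw [Real.exp_le_one_iff]
    have : 0 ≤ A / 2 * ‖x - y‖ ^ 2 := by positivity
    linarith
  have := mul_le_mul_of_nonneg_left h2 (hρ.nonneg y)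
  simp only
  linarith

lemma ge (hρ : Den ρ) (hE : Ex ρ M c) (hA : 0 < A) (x y : Eu κ) (hy : 0 < ρ y) :
    Real.log (ρ y) - A / 2 * ‖x - y‖ ^ 2 ≤ Real.log (sc ρ A x) := by
  have h1 : ρ y * Real.exp (-(A / 2 * ‖x - y‖ ^ 2)) ≤ sc ρ A x := le_ciSup (bdd hρ hE hA x) y
  have h2 : Real.log (ρ y * Real.exp (-(A / 2 * ‖x - y‖ ^ 2))) =
      Real.log (ρ y) - A / 2 * ‖x - y‖ ^ 2 := by
    rw [Real.log_mul hy.ne' (Real.exp_pos _).ne', Real.log_exp]
    ring
  rw [← h2]
  exact Real.log_le_log (by positivity) h1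

lemma near (hρ : Den ρ) (hp : ∀ x, 0 < sc ρ A x) (x : Eu κ) (ε : ℝ) (hε : 0 < ε) :
    ∃ y, 0 < ρ y ∧ Real.log (sc ρ A x) - ε ≤ Real.log (ρ y) - A / 2 * ‖x - y‖ ^ 2 := by
  have h0 : sc ρ A x * Real.exp (-ε) < sc ρ A x := by
    have : Real.exp (-ε) < 1 := by
      rw [Real.exp_lt_one_iff]
      linarith
    have := mul_lt_mul_of_pos_left this (hp x)
    linarith
  obtain ⟨y, hy⟩ := exists_lt_of_lt_ciSup (f := fun y => ρ y * Real.exp (-(A / 2 * ‖x - y‖ ^ 2))) h0
  have hpos : 0 < ρ y * Real.exp (-(A / 2 * ‖x - y‖ ^ 2)) :=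
    lt_trans (mul_pos (hp x) (Real.exp_pos _)) hy
  have hy0 : 0 < ρ y := by
    rcases (hρ.nonneg y).lt_or_eq with h | h
    · exact h
    · rw [← h] at hpos
      simp at hpos
  refine ⟨y, hy0, ?_⟩
  have h2 : Real.log (ρ y * Real.exp (-(A / 2 * ‖x - y‖ ^ 2))) =
      Real.log (ρ y) - A / 2 * ‖x - y‖ ^ 2 := by
    rw [Real.log_mul hy0.ne' (Real.exp_pos _).ne', Real.log_exp]
    ring
  have h3 : Real.log (sc ρ A x * Real.exp (-ε)) = Real.log (sc ρ A x) - ε := by
    rw [Real.log_mul (hp x).ne' (Real.exp_pos _).ne', Real.log_exp]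
    ring
  rw [← h2, ← h3]
  exact Real.log_le_log (mul_pos (hp x) (Real.exp_pos _)) hy.le

/-- **JOB CVX** -/
theorem cvx (h : S_SUP) : S_CVX := by
  intro κ _ ρ hρ M c hE A hA
  have hp : ∀ x, 0 < sc ρ A x := (h κ ρ hρ M c hE A hA).1
  constructor
  · rw [convexOn_iff_forall_pos]
    refine ⟨convex_univ, fun x _ x' _ a b ha hb hab => ?_⟩
    simp only [smul_eq_mul]
    refine le_of_forall_pos_le_add fun ε hε => ?_
    obtain ⟨y, hy, hy1⟩ := near hρ hp x ε hε
    obtain ⟨y', hy', hy1'⟩ := near hρ hp x' ε hε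
    have hb1 : b < 1 := by linarith
    have hlc := hρ.lc y y' b hb hb1
    rw [show 1 - b = a by linarith] at hlc
    have hyt : 0 < ρ (a • y + b • y') :=
      lt_of_lt_of_le (mul_pos (Real.rpow_pos_of_pos hy _) (Real.rpow_pos_of_pos hy' _)) hlc
    have hll : a * Real.log (ρ y) + b * Real.log (ρ y') ≤ Real.log (ρ (a • y + b • y')) := by
      have h1 := Real.log_le_log (mul_pos (Real.rpow_pos_of_pos hy _) (Real.rpow_pos_of_pos hy' _)) hlc
      rwa [Real.log_mul (Real.rpow_pos_of_pos hy _).ne' (Real.rpow_pos_of_pos hy' _).ne',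
        Real.log_rpow hy, Real.log_rpow hy'] at h1
    have hge := ge hρ hE hA (a • x + b • x') (a • y + b • y') hyt
    have hn : ‖(a • x + b • x') - (a • y + b • y')‖ ^ 2 ≤ a * ‖x - y‖ ^ 2 + b * ‖x' - y'‖ ^ 2 := by
      have h1 : (a • x + b • x') - (a • y + b • y') = a • (x - y) + b • (x' - y') := by
        simp only [smul_sub]; abel
      have h2 : ‖(a • x + b • x') - (a • y + b • y')‖ ≤ a * ‖x - y‖ + b * ‖x' - y'‖ := by
        rw [h1]
        refine (norm_add_le _ _).trans ?_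
        rw [norm_smul, norm_smul, Real.norm_of_nonneg ha.le, Real.norm_of_nonneg hb.le]
      have h3 := pow_le_pow_left₀ (norm_nonneg _) h2 2
      have h4 : 0 ≤ a * b * (‖x - y‖ - ‖x' - y'‖) ^ 2 := by positivity
      have h5 : a = 1 - b := by linarith
      subst h5
      nlinarith
    have hn2 := mul_le_mul_of_nonneg_left hn (show 0 ≤ A / 2 by positivity)
    have e1 := mul_le_mul_of_nonneg_left hy1 ha.le
    have e2 := mul_le_mul_of_nonneg_left hy1' hb.le
    have h5 : a = 1 - b := by linarith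
    subst h5
    nlinarith
  · rw [convexOn_iff_forall_pos]
    refine ⟨convex_univ, fun x _ x' _ a b ha hb hab => ?_⟩
    simp only [smul_eq_mul]
    refine le_of_forall_pos_le_add fun ε hε => ?_
    obtain ⟨y, hy, hy1⟩ := near hρ hp (a • x + b • x') ε hε
    have g1 := ge hρ hE hA x y hy
    have g2 := ge hρ hE hA x' y hy
    have k : ∀ z : Eu κ, ‖z - y‖ ^ 2 = ‖z‖ ^ 2 - 2 * ⟪z, y⟫_ℝ + ‖y‖ ^ 2 := fun z => norm_sub_sq_real z y
    rw [k] at g1 g2 hy1
    rw [inner_add_left, real_inner_smul_left, real_inner_smul_left] at hy1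
    have e1 := mul_le_mul_of_nonneg_left g1 ha.le
    have e2 := mul_le_mul_of_nonneg_left g2 hb.le
    have h5 : a = 1 - b := by linarith
    subst h5
    nlinarith

end Q38.LD.Cvx
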