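import Pool.Agent.Q289.LD.Stm

/-! Job LIM of project LD (helper289). -/

set_option autoImplicit false

namespace Q38.LD.Lim

open MeasureTheory Set Filter Topology
open scoped ENNReal InnerProductSpace
open Pool.Agent.W695.KH (Eu EU Sm Pot WPo)
open Q289.LD

variable {κ : Type} [Fintype κ]

lemma integ {c : ℝ} (hc : 0 < c) :
    Integrable (fun x : Eu κ => (1 + ‖x‖ ^ 2) * Real.exp (-(c * ‖x‖))) := by
  set d := Module.finrank ℝ (Eu κ) with hd
  set N := d + 3 with hN
  set K : ℝ := (N.factorial : ℝ) * Real.exp c / c ^ N with hK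
  have h0 : Integrable (fun x : Eu κ => K * (1 + ‖x‖) ^ (-((d : ℝ) + 1))) :=
    (integrable_one_add_norm (E := Eu κ) (μ := volume) (r := (d : ℝ) + 1) (by linarith)).const_mul K
  refine h0.mono' (Continuous.aestronglyMeasurable (by fun_prop)) (ae_of_all _ fun x => ?_)
  set t := ‖x‖ with ht
  have ht0 : 0 ≤ t := norm_nonneg x
  rw [Real.norm_of_nonneg (by positivity)]
  have h1 := Real.pow_div_factorial_le_exp (c * (1 + t)) (by positivity) N
  have h2 : (1 + t) ^ N * Real.exp (-(c * t)) ≤ K := by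
    have hf : (0 : ℝ) < (N.factorial : ℝ) := by exact_mod_cast Nat.factorial_pos N
    rw [div_le_iff₀ hf, mul_pow] at h1
    rw [hK, le_div_iff₀ (by positivity)]
    have e1 : Real.exp (c * (1 + t)) = Real.exp c * Real.exp (c * t) := by
      rw [← Real.exp_add]; congr 1; ring
    rw [e1] at h1
    have e2 : Real.exp (c * t) * Real.exp (-(c * t)) = 1 := by
      rw [← Real.exp_add]; simp
    calc (1 + t) ^ N * Real.exp (-(c * t)) * c ^ N
        = (c ^ N * (1 + t) ^ N) * Real.exp (-(c * t)) := by ring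
      _ ≤ (Real.exp c * Real.exp (c * t) * (N.factorial : ℝ)) * Real.exp (-(c * t)) :=
          mul_le_mul_of_nonneg_right h1 (Real.exp_pos _).le
      _ = (N.factorial : ℝ) * Real.exp c * (Real.exp (c * t) * Real.exp (-(c * t))) := by ring
      _ = _ := by rw [e2, mul_one]
  have h3 : (1 + t) ^ (-((d : ℝ) + 1)) = ((1 + t) ^ (d + 1))⁻¹ := by
    rw [Real.rpow_neg (by positivity)]
    congr 1
    rw [← Real.rpow_natCast]
    congr 1
    push_cast
    ring
  rw [h3, ← div_eq_mul_inv, le_div_iff₀ (by positivity)]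
  have h4 : 1 + t ^ 2 ≤ (1 + t) ^ 2 := by nlinarith
  calc (1 + t ^ 2) * Real.exp (-(c * t)) * (1 + t) ^ (d + 1)
      = (1 + t ^ 2) * ((1 + t) ^ (d + 1) * Real.exp (-(c * t))) := by ring
    _ ≤ (1 + t) ^ 2 * ((1 + t) ^ (d + 1) * Real.exp (-(c * t))) :=
        mul_le_mul_of_nonneg_right h4 (by positivity)
    _ = (1 + t) ^ N * Real.exp (-(c * t)) := by rw [hN]; ring
    _ ≤ K := h2

/-- **JOB LIM** -/
theorem lim (h1 : S_EXP) (h2 : S_CAE) (h3 : S_SUP) (h4 : S_CVX) : S_LIM := by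
  intro κ _ ρ hρ
  obtain ⟨M, c, hE⟩ := h1 κ ρ hρ
  have hM := hE.1
  have hc := hE.2.1
  have hint := integ (κ := κ) hc
  have hpos : ∀ A : ℝ, 0 < A → ∀ x, 0 < sc ρ A x := fun A hA => (h3 κ ρ hρ M c hE A hA).1
  have hcont : ∀ A : ℝ, 0 < A → Continuous (sc ρ A) := by
    intro A hA
    have hcv := (h4 κ ρ hρ M c hE A hA).1
    have hc1 : Continuous (fun x => -Real.log (sc ρ A x)) := by
      rw [← continuousOn_univ]
      exact hcv.continuousOn isOpen_univ
    have : sc ρ A = fun x => Real.exp (-(-Real.log (sc ρ A x))) := by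
      funext x
      rw [neg_neg, Real.exp_log (hpos A hA x)]
    rw [this]
    exact Real.continuous_exp.comp hc1.neg
  have hI : ∀ A : ℝ, 0 < A → Integrable (fun x => (1 + ‖x‖ ^ 2) * sc ρ A x) := by
    intro A hA
    refine (hint.const_mul (M * Real.exp (c ^ 2 / (2 * A)))).mono'
      (Continuous.aestronglyMeasurable (by have := hcont A hA; fun_prop)) (ae_of_all _ fun x => ?_)
    rw [Real.norm_of_nonneg (mul_nonneg (by positivity) (hpos A hA x).le)]
    have := (h3 κ ρ hρ M c hE A hA).2.2.1 x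
    calc (1 + ‖x‖ ^ 2) * sc ρ A x
        ≤ (1 + ‖x‖ ^ 2) * (M * Real.exp (c ^ 2 / (2 * A)) * Real.exp (-(c * ‖x‖))) :=
          mul_le_mul_of_nonneg_left this (by positivity)
      _ = _ := by ring
  have hIρ : Integrable (fun x => (1 + ‖x‖ ^ 2) * ρ x) := by
    refine (hint.const_mul M).mono' ?_ (ae_of_all _ fun x => ?_)
    · have h5 : Measurable (fun x : Eu κ => 1 + ‖x‖ ^ 2) := by fun_prop
      exact (h5.mul hρ.meas).aestronglyMeasurable
    · rw [Real.norm_of_nonneg (mul_nonneg (by positivity) (hρ.nonneg x))]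
      have := hE.2.2 x
      calc (1 + ‖x‖ ^ 2) * ρ x ≤ (1 + ‖x‖ ^ 2) * (M * Real.exp (-(c * ‖x‖))) :=
          mul_le_mul_of_nonneg_left this (by positivity)
        _ = _ := by ring
  refine ⟨fun A hA => ⟨hcont A hA, hI A hA⟩, hIρ, fun g B hg hB => ?_⟩
  have hT : ∀ᵐ x, Tendsto (fun A : ℝ => sc ρ A x) atTop (𝓝 (ρ x)) := by
    filter_upwards [h2 κ ρ hρ] with x hx
    refine tendsto_order.2 ⟨fun a ha => ?_, fun a ha => ?_⟩
    · filter_upwards [eventually_gt_atTop (0 : ℝ)] with A hA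
      exact lt_of_lt_of_le ha ((h3 κ ρ hρ M c hE A hA).2.1 x)
    · have hε : 0 < (a - ρ x) / 2 := by linarith
      obtain ⟨δ, hδ, hδ2⟩ := Metric.continuousAt_iff.1 hx _ hε
      have ha0 : 0 < a := lt_of_le_of_lt (hρ.nonneg x) ha
      have ht : Tendsto (fun A : ℝ => M * Real.exp (-(A / 2 * δ ^ 2))) atTop (𝓝 (M * 0)) := by
        refine Tendsto.const_mul M (Real.tendsto_exp_neg_atTop_nhds_zero.comp ?_)
        have : (fun A : ℝ => A / 2 * δ ^ 2) = fun A : ℝ => A * (δ ^ 2 / 2) := by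
          funext A; ring
        rw [this]
        exact Tendsto.atTop_mul_const (by positivity) tendsto_id
      rw [mul_zero] at ht
      filter_upwards [eventually_gt_atTop (0 : ℝ), ht.eventually (gt_mem_nhds ha0)] with A hA hA2
      have h5 := (h3 κ ρ hρ M c hE A hA).2.2.2.1 x δ (ρ x + (a - ρ x) / 2) hδ
        (by have := hρ.nonneg x; linarith) (fun y hy => by
          have h6 := hδ2 (x := y) (by rw [dist_eq_norm, norm_sub_rev]; exact hy)
          rw [Real.dist_eq] at h6
          have := (abs_lt.1 h6).2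
          linarith)
      exact lt_of_le_of_lt h5 (max_lt (by linarith) hA2)
  refine tendsto_integral_filter_of_dominated_convergence
    (fun x => B * ((1 + ‖x‖ ^ 2) * sc ρ 1 x)) ?_ ?_ ((hI 1 one_pos).const_mul B) ?_
  · filter_upwards [eventually_gt_atTop (0 : ℝ)] with A hA
    exact (hg.mul (hcont A hA)).aestronglyMeasurable
  · filter_upwards [eventually_ge_atTop (1 : ℝ)] with A hA
    refine ae_of_all _ fun x => ?_
    have hA0 : 0 < A := by linarith
    rw [norm_mul, Real.norm_eq_abs, Real.norm_of_nonneg (hpos A hA0 x).le]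
    have h5 := (h3 κ ρ hρ M c hE 1 one_pos).2.2.2.2 A hA x
    have h6 : 0 ≤ B * (1 + ‖x‖ ^ 2) := (abs_nonneg _).trans (hB x)
    calc |g x| * sc ρ A x ≤ (B * (1 + ‖x‖ ^ 2)) * sc ρ 1 x :=
          mul_le_mul (hB x) h5 (hpos A hA0 x).le h6
      _ = _ := by ring
  · filter_upwards [hT] with x hx
    exact hx.const_mul (g x)

end Q38.LD.Lim
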