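import Pool.Agent.Q289.LD.Stm

/-! Job SUB of project LD (helper289). -/

set_option autoImplicit false

namespace Q38.LD.Sub

open MeasureTheory Set Filter Topology
open scoped ENNReal InnerProductSpace
open Pool.Agent.W695.KH (Eu EU Sm Pot WPo)
open Q289.LD

variable {κ : Type} [Fintype κ]

lemma subgrad {W : Eu κ → ℝ} (hW : ConvexOn ℝ univ W) (x : Eu κ) :
    ∃ p : Eu κ, ∀ y, W x + ⟪p, y - x⟫_ℝ ≤ W y := by
  have hcont : Continuous W := by
    rw [← continuousOn_univ]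
    exact hW.continuousOn isOpen_univ
  have hconv := hW.convex_strict_epigraph
  have hopen : IsOpen {p : Eu κ × ℝ | p.1 ∈ (univ : Set (Eu κ)) ∧ W p.1 < p.2} := by
    have : {p : Eu κ × ℝ | p.1 ∈ (univ : Set (Eu κ)) ∧ W p.1 < p.2} = {p | W p.1 < p.2} := by
      ext p; simp
    rw [this]
    exact isOpen_lt (hcont.comp continuous_fst) continuous_snd
  obtain ⟨f, hf⟩ := geometric_hahn_banach_open_point (x := (x, W x)) hconv hopen (by simp)
  have hdec : ∀ (y : Eu κ) (s : ℝ), f (y, s) = f (y, 0) + s * f (0, 1) := by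
    intro y s
    have h1 : ((y, s) : Eu κ × ℝ) = (y, 0) + s • ((0, 1) : Eu κ × ℝ) := by
      ext <;> simp
    rw [h1, map_add, map_smul, smul_eq_mul]
  have hr : f (0, 1) < 0 := by
    have h1 := hf (x, W x + 1) ⟨mem_univ _, by simp⟩
    rw [hdec x (W x + 1), hdec x (W x)] at h1
    linarith
  have hle : ∀ y, f (y, 0) + W y * f (0, 1) ≤ f (x, 0) + W x * f (0, 1) := by
    intro y
    refine le_of_forall_pos_le_add fun ε hε => ?_
    have hr' : 0 < -f (0, 1) := by linarith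
    have h1 := hf (y, W y + ε / (-f (0, 1))) ⟨mem_univ _, by simp only; have := div_pos hε hr'; linarith⟩
    rw [hdec y, hdec x (W x)] at h1
    have h2 : ε / (-f (0, 1)) * f (0, 1) = -ε := by
      have hr0 : f (0, 1) ≠ 0 := hr.ne
      rw [div_neg, neg_mul, div_mul_cancel₀ _ hr0]
    nlinarith
  let g : Eu κ →L[ℝ] ℝ := f.comp (ContinuousLinearMap.inl ℝ (Eu κ) ℝ)
  let q : Eu κ := (InnerProductSpace.toDual ℝ (Eu κ)).symm g
  have hq : ∀ v, ⟪q, v⟫_ℝ = f (v, 0) := by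
    intro v
    have : ⟪q, v⟫_ℝ = g v := InnerProductSpace.toDual_symm_apply
    rw [this]
    simp [g]
  refine ⟨(1 / (-f (0, 1))) • q, fun y => ?_⟩
  rw [real_inner_smul_left, hq]
  have h1 := hle y
  have h2 : f (y - x, 0) = f (y, 0) - f (x, 0) := by
    rw [← map_sub]; simp
  have hr' : 0 < -f (0, 1) := by linarith
  have h3 : f (y - x, 0) ≤ (W y - W x) * (-f (0, 1)) := by
    rw [h2]; linarith
  have h4 : 1 / (-f (0, 1)) * f (y - x, 0) ≤ W y - W x := by
    rw [one_div, inv_mul_le_iff₀ hr', mul_comm]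
    linarith
  linarith

/-- **JOB SUB** -/
theorem sub : S_SUB := by
  intro κ _ W A hA hW hG
  have hAn : ∀ x : Eu κ, ∃ p : Eu κ, (∀ y, W x + ⟪p, y - x⟫_ℝ ≤ W y) ∧
      ∀ y, W y ≤ W x + ⟪p, y - x⟫_ℝ + A / 2 * ‖y - x‖ ^ 2 := by
    intro x
    obtain ⟨p, hp⟩ := subgrad hW x
    obtain ⟨q, hq⟩ := subgrad hG x
    have h1 : ∀ y, W y ≤ W x + ⟪A • x - q, y - x⟫_ℝ + A / 2 * ‖y - x‖ ^ 2 := by
      intro y
      have h := hq y
      have e1 : ‖y‖ ^ 2 = ‖x‖ ^ 2 + 2 * ⟪x, y - x⟫_ℝ + ‖y - x‖ ^ 2 := by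
        have := norm_add_sq_real x (y - x)
        rwa [add_sub_cancel] at this
      rw [inner_sub_left, real_inner_smul_left]
      rw [e1] at h
      nlinarith
    have hpq : p = A • x - q := by
      by_contra hne
      have hne' : p - (A • x - q) ≠ 0 := sub_ne_zero.mpr hne
      set v := p - (A • x - q) with hv
      have hvpos : 0 < ‖v‖ ^ 2 := by positivity
      have h2 := h1 (x + (1 / A) • v)
      have h3 := hp (x + (1 / A) • v)
      rw [add_sub_cancel_left] at h2 h3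
      rw [real_inner_smul_right] at h2 h3
      rw [norm_smul, Real.norm_of_nonneg (by positivity : (0 : ℝ) ≤ 1 / A)] at h2
      have h4 : ⟪p, v⟫_ℝ - ⟪A • x - q, v⟫_ℝ = ‖v‖ ^ 2 := by
        rw [← inner_sub_left, ← hv, real_inner_self_eq_norm_sq]
      have h5 : 1 / A * ‖v‖ ^ 2 ≤ A / 2 * (1 / A * ‖v‖) ^ 2 := by
        rw [← h4]
        rw [mul_sub]
        linarith
      have h6 : A / 2 * (1 / A * ‖v‖) ^ 2 = 1 / 2 * (1 / A * ‖v‖ ^ 2) := by
        field_simp
      have h7 : 0 < 1 / A * ‖v‖ ^ 2 := by positivity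
      linarith
    exact ⟨p, hp, hpq ▸ h1⟩
  choose b hb1 hb2 using hAn
  -- cocoercivity
  have hco1 : ∀ x y, W x + ⟪b x, y - x⟫_ℝ + ‖b x - b y‖ ^ 2 / (2 * A) ≤ W y := by
    intro x y
    set d := b y - b x with hd
    have h1 := hb1 x (y - (1 / A) • d)
    have h2 := hb2 y (y - (1 / A) • d)
    have e1 : y - (1 / A) • d - x = (y - x) - (1 / A) • d := by abel
    have e2 : y - (1 / A) • d - y = -((1 / A) • d) := by abel
    rw [e1, inner_sub_right, real_inner_smul_right] at h1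
    rw [e2, inner_neg_right, real_inner_smul_right, norm_neg, norm_smul,
      Real.norm_of_nonneg (by positivity : (0 : ℝ) ≤ 1 / A)] at h2
    have h4 : ⟪b y, d⟫_ℝ - ⟪b x, d⟫_ℝ = ‖d‖ ^ 2 := by
      rw [← inner_sub_left, ← hd, real_inner_self_eq_norm_sq]
    have h5 : ‖b x - b y‖ = ‖d‖ := by rw [hd, norm_sub_rev]
    rw [h5]
    have h6 : ‖d‖ ^ 2 / (2 * A) = 1 / A * ‖d‖ ^ 2 - A / 2 * (1 / A * ‖d‖) ^ 2 := by
      field_simp
      ring
    rw [h6, ← h4, mul_sub]
    linarith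
  have hco : ∀ x y, ‖b x - b y‖ ^ 2 / A ≤ ⟪b x - b y, x - y⟫_ℝ := by
    intro x y
    have h1 := hco1 x y
    have h2 := hco1 y x
    have e1 : ‖b y - b x‖ = ‖b x - b y‖ := norm_sub_rev _ _
    rw [e1] at h2
    have e2 : ⟪b x, y - x⟫_ℝ = -⟪b x, x - y⟫_ℝ := by rw [← inner_neg_right, neg_sub]
    rw [e2] at h1
    rw [inner_sub_left]
    have e3 : ‖b x - b y‖ ^ 2 / A = ‖b x - b y‖ ^ 2 / (2 * A) + ‖b x - b y‖ ^ 2 / (2 * A) := by
      field_simp
      ring
    rw [e3]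
    linarith
  refine ⟨b, ?_, ?_, ?_⟩
  · intro x
    rw [hasFDerivAt_iff_isLittleO_nhds_zero, Asymptotics.isLittleO_iff]
    intro ε hε
    have : ∀ᶠ v : Eu κ in 𝓝 0, ‖v‖ < 2 * ε / A := by
      have h0 : (0 : ℝ) < 2 * ε / A := by positivity
      filter_upwards [Metric.ball_mem_nhds (0 : Eu κ) h0] with v hv
      simpa using hv
    filter_upwards [this] with v hv
    have h1 := hb1 x (x + v)
    have h2 := hb2 x (x + v)
    rw [add_sub_cancel_left] at h1 h2
    rw [innerSL_apply_apply, Real.norm_eq_abs, abs_of_nonneg (by linarith)]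
    have h3 : A / 2 * ‖v‖ ^ 2 ≤ ε * ‖v‖ := by
      have h4 : A / 2 * ‖v‖ ≤ ε := by
        rw [lt_div_iff₀ hA] at hv
        linarith
      have := mul_le_mul_of_nonneg_right h4 (norm_nonneg v)
      nlinarith
    linarith
  · intro x y
    have h1 := hco x y
    have h2 : ⟪b x - b y, x - y⟫_ℝ ≤ ‖b x - b y‖ * ‖x - y‖ := real_inner_le_norm _ _
    rw [div_le_iff₀ hA] at h1
    rcases (norm_nonneg (b x - b y)).eq_or_lt with h0 | h0
    · rw [← h0]; positivity
    · have h3 : ‖b x - b y‖ * ‖b x - b y‖ ≤ ‖b x - b y‖ * (A * ‖x - y‖) := by nlinarith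
      exact le_of_mul_le_mul_left h3 h0
  · intro h hh hhA x y
    have h1 := hco x y
    rw [div_le_iff₀ hA] at h1
    have e1 : (x - h • b x) - (y - h • b y) = (x - y) - h • (b x - b y) := by
      rw [smul_sub]; abel
    have h2 : ‖(x - h • b x) - (y - h • b y)‖ ^ 2 ≤ ‖x - y‖ ^ 2 := by
      rw [e1, norm_sub_sq_real, real_inner_smul_right, norm_smul, Real.norm_of_nonneg hh,
        real_inner_comm]
      have h3 : (h * ‖b x - b y‖) ^ 2 ≤ h * ⟪b x - b y, x - y⟫_ℝ := by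
        have h4 : (h * ‖b x - b y‖) ^ 2 = h * (h * ‖b x - b y‖ ^ 2) := by ring
        rw [h4]
        refine mul_le_mul_of_nonneg_left ?_ hh
        have h5 : 0 ≤ ⟪b x - b y, x - y⟫_ℝ := by
          have := hco x y
          exact le_trans (by positivity) this
        calc h * ‖b x - b y‖ ^ 2 ≤ h * (⟪b x - b y, x - y⟫_ℝ * A) := mul_le_mul_of_nonneg_left h1 hh
          _ = (h * A) * ⟪b x - b y, x - y⟫_ℝ := by ring
          _ ≤ 1 * ⟪b x - b y, x - y⟫_ℝ := mul_le_mul_of_nonneg_right hhA h5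
          _ = _ := one_mul _
      have h6 : 0 ≤ h * ⟪b x - b y, x - y⟫_ℝ := le_trans (by positivity) h3
      linarith
    exact le_of_sq_le_sq h2 (norm_nonneg _)

end Q38.LD.Sub
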